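import Pool.Agent.Results.MP_1acd66_nt.TrilinearOrder
import Pool.Agent.X35.ZW.Count

/-!
# The rational points with anticanonical heights in short intervals on all smooth divisors of type `(1,1,1)` in `ℙ² × ℙ² × ℙ²`
-/

set_option autoImplicit false

namespace Pool.Agent.Results.MP_1acd66_nt.HeightsNearSequences

open Pool.Agent.W978.QN

/-- The rational points of the open subset `U` of the divisor `X_a` of type `(1,1,1)` given by the trilinear form with coefficients `a`
(normalised primitive coordinates; `U` is the set where the three determinants do not vanish). -/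
def Points (a : (Fin 3 → Fin 3) → ℤ) : Set (Fin 3 → Fin 3 → ℤ) := {P | (∀ i, Rep (P i)) ∧ tf a P = 0 ∧ InU a P}

/-- The height for the class `(1,1,1)`; its square is the anticanonical height. -/
noncomputable def height (P : Fin 3 → Fin 3 → ℤ) : ℝ := ∏ i, (nm (P i) : ℝ)

/-- Let `v_i ≥ 1` with `∑ v_i ^ (-t) < ∞` for all `t > τ` (`τ ≥ 0`; for example `v_i = 2 ^ i`, `τ = 0`), `0 ≤ θ < 1` and `0 ≤ δ ≤ 2`.
There is a set `E` of reals of Hausdorff dimension at most `(δ + τ) / (1 - θ)` such that for every real `α > 0` outside `E` and ALL smooth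
divisors `X_a` of type `(1,1,1)` in `ℙ² × ℙ² × ℙ²` over `ℚ`, for `i ≥ i₀` the number of the rational points `P` of `U` with
`|h(P) - α v_i| ≤ v_i ^ θ` is at most `v_i ^ (2 - δ)`, where `h ^ 2` is the anticanonical height.

For `τ = 0` and almost every `α` this holds with `δ` as close to `1 - θ` as we like: the number of the rational points with
`|h(P) - α v_i| ≤ v_i ^ θ` is at most `v_i ^ (1 + θ + ε)`, that is, `B ^ ((1 + θ) / 2 + ε)` for an interval of length `B ^ ((1 + θ) / 2)`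
around `B = (α v_i) ^ 2` and the anticanonical height. -/
theorem result (v : ℕ → ℝ) (τ θ δ : ℝ) (hv1 : ∀ i, 1 ≤ v i) (hτ : 0 ≤ τ) (hθ0 : 0 ≤ θ) (hθ : θ < 1)
    (hv : ∀ t : ℝ, τ < t → Summable (fun i => v i ^ (-t))) (hδ : 0 ≤ δ) (hδ2 : δ ≤ 2) :
    ∃ E : Set ℝ, dimH E ≤ ENNReal.ofReal ((δ + τ) / (1 - θ)) ∧ ∀ α : ℝ, 0 < α → α ∉ E → ∀ a : (Fin 3 → Fin 3) → ℤ, Smooth a →
      ∃ i₀ : ℕ, ∀ i : ℕ, i₀ ≤ i → {P | P ∈ Points a ∧ |height P - α * v i| ≤ v i ^ θ}.Finite ∧
        ({P | P ∈ Points a ∧ |height P - α * v i| ≤ v i ^ θ}.ncard : ℝ) ≤ v i ^ (2 - δ) := by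
  classical
  have hone : ∀ a : (Fin 3 → Fin 3) → ℤ, ∃ E : Set ℝ, dimH E ≤ ENNReal.ofReal ((δ + τ) / (1 - θ)) ∧ ∀ α : ℝ, 0 < α → α ∉ E → Smooth a →
      ∃ i₀ : ℕ, ∀ i : ℕ, i₀ ≤ i → {P | P ∈ Points a ∧ |height P - α * v i| ≤ v i ^ θ}.Finite ∧
        ({P | P ∈ Points a ∧ |height P - α * v i| ≤ v i ^ θ}.ncard : ℝ) ≤ v i ^ (2 - δ) := by
    intro a
    by_cases ha : Smooth a
    · obtain ⟨-, c, C, T₀, hc, hC, h⟩ := Pool.Agent.Results.MP_1acd66_nt.TrilinearOrder.result a ha
      have hcnt : ∀ ε : ℝ, 0 < ε → ∃ C' : ℝ, ∀ X : ℝ, 1 ≤ X → {P | P ∈ Points a ∧ height P ≤ X}.Finite ∧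
          ({P | P ∈ Points a ∧ height P ≤ X}.ncard : ℝ) ≤ C' * X ^ (2 + ε) := by
        intro ε hε
        set T₁ : ℝ := max T₀ 3 with hT₁
        have hT3 : 3 ≤ T₁ := le_max_right _ _
        set η : ℝ := ε / 2 with hη
        have hη0 : 0 < η := by positivity
        refine ⟨C * T₁ * (Real.log T₁ + 2 / η) ^ 2, fun X hX => ?_⟩
        have hX0 : 0 < X := by linarith
        have hX2 : 1 ≤ X ^ 2 := by nlinarith
        have hT : T₀ ≤ T₁ * X ^ 2 := (le_max_left _ _).trans (by nlinarith)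
        obtain ⟨h1, -, h2⟩ := h (T₁ * X ^ 2) hT
        have hsub : {P | P ∈ Points a ∧ height P ≤ X} ⊆ {P : Fin 3 → Fin 3 → ℤ | (∀ i, Rep (P i)) ∧ tf a P = 0 ∧ InU a P ∧
            ∏ i, (nm (P i) : ℝ) ^ 2 ≤ T₁ * X ^ 2} := by
          rintro P ⟨⟨h3, h4, h5⟩, h6⟩
          refine ⟨h3, h4, h5, ?_⟩
          rw [Finset.prod_pow]
          have h7 : 0 ≤ height P := by
            apply Finset.prod_nonneg
            intro i _
            have : 0 ≤ nm (P i) := by
              unfold nm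
              exact le_trans (abs_nonneg _) (le_max_right _ _)
            exact_mod_cast this
          have h8 : height P ^ 2 ≤ X ^ 2 := pow_le_pow_left₀ h7 h6 2
          have h9 : X ^ 2 ≤ T₁ * X ^ 2 := by nlinarith
          exact h8.trans h9
        refine ⟨h1.subset hsub, ?_⟩
        have h3 : ({P | P ∈ Points a ∧ height P ≤ X}.ncard : ℝ) ≤ ({P : Fin 3 → Fin 3 → ℤ | (∀ i, Rep (P i)) ∧ tf a P = 0 ∧ InU a P ∧
            ∏ i, (nm (P i) : ℝ) ^ 2 ≤ T₁ * X ^ 2}.ncard : ℝ) := by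
          exact_mod_cast Set.ncard_le_ncard hsub h1
        refine h3.trans (h2.trans ?_)
        have hl1 : 0 ≤ Real.log T₁ := Real.log_nonneg (by linarith)
        have h4 : Real.log (T₁ * X ^ 2) ≤ (Real.log T₁ + 2 / η) * X ^ η := by
          rw [Real.log_mul (by linarith) (by positivity), Real.log_pow]
          have h6 := Real.log_le_rpow_div hX0.le hη0
          have h7 : (1 : ℝ) ≤ X ^ η := Real.one_le_rpow hX hη0.le
          have h9 : X ^ η / η = 1 / η * X ^ η := by ring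
          rw [h9] at h6
          have h10 : Real.log T₁ ≤ Real.log T₁ * X ^ η := le_mul_of_one_le_right hl1 h7
          push_cast
          calc Real.log T₁ + 2 * Real.log X ≤ Real.log T₁ * X ^ η + 2 * (1 / η * X ^ η) := by linarith
            _ = (Real.log T₁ + 2 / η) * X ^ η := by ring
        have h5 : 0 ≤ Real.log (T₁ * X ^ 2) := Real.log_nonneg (by nlinarith)
        have h6 : Real.log (T₁ * X ^ 2) ^ 2 ≤ (Real.log T₁ + 2 / η) ^ 2 * X ^ ε := by
          calc Real.log (T₁ * X ^ 2) ^ 2 ≤ ((Real.log T₁ + 2 / η) * X ^ η) ^ 2 := pow_le_pow_left₀ h5 h4 2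
            _ = (Real.log T₁ + 2 / η) ^ 2 * X ^ ε := by
                rw [mul_pow, ← Real.rpow_natCast (X ^ η) 2, ← Real.rpow_mul hX0.le]
                congr 2
                rw [hη]
                push_cast
                ring
        calc C * (T₁ * X ^ 2) * Real.log (T₁ * X ^ 2) ^ 2 ≤ C * (T₁ * X ^ 2) * ((Real.log T₁ + 2 / η) ^ 2 * X ^ ε) :=
              mul_le_mul_of_nonneg_left h6 (by positivity)
          _ = C * T₁ * (Real.log T₁ + 2 / η) ^ 2 * (X ^ (2 : ℝ) * X ^ ε) := by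
              rw [← Real.rpow_natCast X 2]
              push_cast
              ring
          _ = C * T₁ * (Real.log T₁ + 2 / η) ^ 2 * X ^ (2 + ε) := by rw [← Real.rpow_add hX0]
      obtain ⟨E, hE, h'⟩ := Pool.Agent.X35.ZW.count_windows (Points a) height 2 (2 - δ) (by linarith) (by linarith) hcnt hv1 hτ hv hθ0 hθ
      refine ⟨E, hE.trans (ENNReal.ofReal_le_ofReal ?_), fun α hα hαE _ => h' α hα hαE⟩
      apply div_le_div_of_nonneg_right _ (by linarith)
      linarith
    · exact ⟨∅, by simp, fun α _ _ h => absurd h ha⟩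
  choose E hE1 hE2 using hone
  refine ⟨⋃ a, E a, ?_, fun α hα hαE a ha => hE2 a α hα (fun h => hαE (Set.mem_iUnion.2 ⟨_, h⟩)) ha⟩
  rw [dimH_iUnion]
  exact iSup_le hE1

end Pool.Agent.Results.MP_1acd66_nt.HeightsNearSequences
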